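import Pool.Agent.Q89.JB.Mult

/-!
# The Jordan product of multipliers of a JB*-algebra is separately J-strict continuous

Idea.  The linearised Jordan identity gives
`b² (x y) = x (b² y) - 2 (b x) (b y) + 2 b ((b x) y)`.  For `x` fixed each term on the right is
J-strict-to-norm continuous in `y`, since `b x` is in `A`.  Every element of `A` is a linear
combination of squares.
-/

set_option autoImplicit false

namespace Pool.Agent.Results.MP_6503f0_an.SeparateContinuity

open Q89.JB Topology

/-- The J-strict topology on the set `M(A)` of Jordan multipliers of `A` in `B`: the topology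
generated by the seminorms `x ↦ ‖a ∘ x‖`, `a` in `A`, that is, the coarsest topology for which all
the linear maps `x ↦ a ∘ x` from `M(A)` to the normed space `B` are continuous. -/
@[reducible] def jStrict {A B : Type*} [NormedAddCommGroup A] [NormedSpace ℂ A]
    [NormedAddCommGroup B] [NormedSpace ℂ B] (SB : JBStarStructure B) (i : A →ₗᵢ[ℂ] B) :
    TopologicalSpace (multipliers SB i) :=
  ⨅ a : A, TopologicalSpace.induced (fun x : multipliers SB i => SB.mul (i a) x) inferInstance

/-- **Theorem.** Let `A` be a JB*-algebra which is a closed Jordan *-subalgebra of a JB*-algebra `B`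
(for example `B = A**`), and let `M(A)` be the set of all `x` in `B` with `x ∘ A ⊆ A`.  Then `M(A)`
is closed under the Jordan product, and for every `x` in `M(A)` the map `y ↦ x ∘ y` from `M(A)` to
`M(A)` is continuous for the J-strict topology. -/
theorem result {A B : Type*} [NormedAddCommGroup A] [NormedSpace ℂ A] [CompleteSpace A]
    [NormedAddCommGroup B] [NormedSpace ℂ B] [CompleteSpace B] (SA : JBStarStructure A)
    (SB : JBStarStructure B) (i : A →ₗᵢ[ℂ] B) (hi : IsEmbedding SA SB i) :
    ∃ hM : ∀ x ∈ multipliers SB i, ∀ y ∈ multipliers SB i, SB.mul x y ∈ multipliers SB i,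
      ∀ x : multipliers SB i, Continuous[jStrict SB i, jStrict SB i]
        (fun y : multipliers SB i => ⟨SB.mul x y, hM x x.2 y y.2⟩) := by
  refine ⟨fun x hx y hy => mul_mem_multipliers hi hx hy, fun x => ?_⟩
  let τ : TopologicalSpace (multipliers SB i) := jStrict SB i
  have hτ : ∀ a : A, Continuous (fun y : multipliers SB i => SB.mul (i a) y) := by
    intro a
    exact continuous_iff_le_induced.2 (iInf_le _ a)
  refine continuous_iInf_rng.2 fun a => continuous_induced_rng.2 ?_
  show Continuous (fun y : multipliers SB i => SB.mul (i a) (SB.mul x y))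
  refine induction_squares (SA := SA)
    (fun a => Continuous (fun y : multipliers SB i => SB.mul (i a) (SB.mul x y))) ?_ ?_ ?_ ?_ a
  · simp only [map_zero, SB.zero_mul]
    exact continuous_const
  · intro a b ha hb
    simp only [map_add, SB.add_mul]
    exact ha.add hb
  · intro z a ha
    simp only [map_smul, SB.smul_mul]
    exact ha.const_smul z
  · intro b
    simp only [hi.map_mul, SB.sq_mul_mul]
    obtain ⟨x', hx'⟩ := x.2 b
    have h1 : Continuous (fun y : multipliers SB i => SB.mul x (SB.mul (SB.mul (i b) (i b)) y)) := by
      have := hτ (SA.mul b b)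
      simp only [hi.map_mul] at this
      exact (SB.cont_l x).comp this
    have h2 : Continuous (fun y : multipliers SB i => SB.mul (SB.mul (i b) x) (SB.mul (i b) y)) :=
      (SB.cont_l _).comp (hτ b)
    have h3 : Continuous (fun y : multipliers SB i => SB.mul (i b) (SB.mul (SB.mul (i b) x) y)) := by
      have := hτ x'
      rw [hx', SB.mul_comm] at this
      exact (SB.cont_l _).comp this
    exact (h1.sub (h2.const_smul _)).add (h3.const_smul _)

end Pool.Agent.Results.MP_6503f0_an.SeparateContinuity
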